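import Pool.Agent.MWI.StmtsE

/-!
Row N2E of squad MWI: the pentagon.
-/

set_option autoImplicit false

namespace Pool.Agent.MWI.H24

open Pool.Agent.Helper14_MV Pool.Agent.Helper2_MV Pool.Agent.MWF Pool.Agent.MWI

/-- an instance of a word of the pentagon -/
def inst (P Q : List ℕ) (m : ℕ) (f : ℕ → List ℕ) (p q : List ℕ) (s e : Bool) : List ℕ :=
  p ++ (uu P Q m s e).flatMap f ++ q

theorem move (hV : VinStmt) (hK : KeyStmt) {β : FIC} {P Q : List ℕ} {m : ℕ} (H : HyE β P Q m)
    (f : ℕ → List ℕ) (p q : List ℕ) (s e s' e' s2 e2 : Bool)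
    (h : SS β P Q m s' e' (inst P Q m f p q s e)) :
    SS β P Q m s' e' (inst P Q m f p q s2 e2) ∨
      (s = s' ∧ SS β P Q m s2 (xor e2 (xor e e')) (inst P Q m f p q s2 e2)) := by
  unfold inst at h ⊢
  rw [List.append_assoc] at h
  rcases hK β P Q m H s e s' e' f p q h with h1 | ⟨h1, h2⟩
  · left
    rw [List.append_assoc]
    exact hV β H.iso P Q m s' e' _ _ h (h1 s2 e2)
  · right
    rw [List.append_assoc]
    exact ⟨h1, h2 s2 e2⟩

theorem disj (hC : CvfStmt) {β : FIC} {P Q : List ℕ} {m : ℕ} {s e s1 e1 : Bool} {w : List ℕ}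
    (h : SS β P Q m s e w) (h1 : SS β P Q m s1 e1 w) : s = s1 ∧ e = e1 := by
  refine hC.2.2.2.2 s s1 e e1 fun j hj k hk hc => ?_
  exact (h1.cov j hj k hk).1 ((h.cov j hj k hk).2 hc)

theorem n2e (hV : VinStmt) (hC : CvfStmt) (hB : BasStmt) (hK : KeyStmt) : N2eStmt := by
  intro β hM hI hOS hO1 hO2 hLm P Q m hm hperm hee
  by_contra hno
  have hth : ∀ w, RR β (ww P Q (List.range m)) w → Thr P Q m w := by
    intro w hw
    by_contra h
    exact hno ⟨w, hw, h⟩
  have H : HyE β P Q m := ⟨hI, hm, hperm, hOS, hO1, hO2, hLm, hee, hth⟩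
  let PS : List ℕ → Prop := fun w => SS β P Q m false false w ∨ SS β P Q m true false w
  let PT : List ℕ → Prop := fun w => SS β P Q m true false w ∨ SS β P Q m true true w
  let PB : List ℕ → Prop := fun w => SS β P Q m true false w
  have hvin : ∀ s e w w', SS β P Q m s e w → RR β w w' → SS β P Q m s e w' :=
    fun s e w w' h h' => hV β hI P Q m s e w w' h h'
  have hβS : β ≤ gaml PS := le_gaml (by
    rintro u v huv (h | h)
    · exact Or.inl (hvin _ _ _ _ h huv)
    · exact Or.inr (hvin _ _ _ _ h huv))
  have hβT : β ≤ gaml PT := le_gaml (by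
    rintro u v huv (h | h)
    · exact Or.inl (hvin _ _ _ _ h huv)
    · exact Or.inr (hvin _ _ _ _ h huv))
  have hβB : β ≤ gaml PB := le_gaml (by
    rintro u v huv h
    exact hvin _ _ _ _ h huv)
  -- (1)
  have m1 : ∀ (f : ℕ → List ℕ) (p q : List ℕ) (e e2 e' : Bool),
      SS β P Q m true e' (inst P Q m f p q false e) →
        SS β P Q m true e' (inst P Q m f p q false e2) := by
    intro f p q e e2 e' h
    rcases move hV hK H f p q false e true e' false e2 h with h1 | ⟨h1, -⟩
    · exact h1
    · exact absurd h1 (by decide)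
  have r1T : RR (gaml PT) (uu P Q m false false) (uu P Q m false true) := by
    refine RR_gaml fun f p q => ⟨?_, ?_⟩
    · rintro (h | h)
      · exact Or.inl (m1 f p q false true false h)
      · exact Or.inr (m1 f p q false true true h)
    · rintro (h | h)
      · exact Or.inl (m1 f p q true false false h)
      · exact Or.inr (m1 f p q true false true h)
  have r1B : RR (gaml PB) (uu P Q m false false) (uu P Q m false true) := by
    refine RR_gaml fun f p q => ⟨fun h => m1 f p q false true false h, fun h =>
      m1 f p q true false false h⟩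
  -- (2)
  have m2 : ∀ (f : ℕ → List ℕ) (p q : List ℕ) (e e2 : Bool),
      PT (inst P Q m f p q true e) → PT (inst P Q m f p q true e2) := by
    intro f p q e e2 h
    have aux : ∀ x : Bool, ∀ w, SS β P Q m true x w → PT w := by
      intro x w hx
      cases x
      · exact Or.inl hx
      · exact Or.inr hx
    rcases h with h | h
    · rcases move hV hK H f p q true e true false true e2 h with h1 | ⟨-, h1⟩
      · exact aux _ _ h1
      · exact aux _ _ h1
    · rcases move hV hK H f p q true e true true true e2 h with h1 | ⟨-, h1⟩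
      · exact aux _ _ h1
      · exact aux _ _ h1
  have r2 : RR (gaml PT) (uu P Q m true false) (uu P Q m true true) :=
    RR_gaml fun f p q => ⟨fun h => m2 f p q false true h, fun h => m2 f p q true false h⟩
  -- (3)
  have m3 : ∀ (f : ℕ → List ℕ) (p q : List ℕ) (s s2 e : Bool),
      PS (inst P Q m f p q s e) → PS (inst P Q m f p q s2 e) := by
    intro f p q s s2 e h
    have aux : ∀ x : Bool, ∀ w, SS β P Q m x false w → PS w := by
      intro x w hx
      cases x
      · exact Or.inl hx
      · exact Or.inr hx
    have hx : xor e (xor e false) = false := by cases e <;> rfl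
    rcases h with h | h
    · rcases move hV hK H f p q s e false false s2 e h with h1 | ⟨-, h1⟩
      · exact aux _ _ h1
      · rw [hx] at h1
        exact aux _ _ h1
    · rcases move hV hK H f p q s e true false s2 e h with h1 | ⟨-, h1⟩
      · exact aux _ _ h1
      · rw [hx] at h1
        exact aux _ _ h1
  have r3 : RR (gaml PS) (uu P Q m true false) (uu P Q m false false) :=
    RR_gaml fun f p q => ⟨fun h => m3 f p q true false false h,
      fun h => m3 f p q false true false h⟩
  have r4 : RR (gaml PS) (uu P Q m false true) (uu P Q m true true) :=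
    RR_gaml fun f p q => ⟨fun h => m3 f p q false true true h,
      fun h => m3 f p q true false true h⟩
  -- (5)
  have hfin : SS β P Q m true false (uu P Q m true true) := by
    have hs : RR (FIC.sup (FIC.inf (gaml PT) (gaml PB)) (gaml PS)) (uu P Q m true false)
        (uu P Q m true true) := by
      have a1 := FIC.le_sup_right (FIC.inf (gaml PT) (gaml PB)) (gaml PS) _ _ r3
      have a2 := FIC.le_sup_left (FIC.inf (gaml PT) (gaml PB)) (gaml PS) _ _ (⟨r1T, r1B⟩ :
        (FIC.inf (gaml PT) (gaml PB)).r _ _)
      have a3 := FIC.le_sup_right (FIC.inf (gaml PT) (gaml PB)) (gaml PS) _ _ r4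
      exact FIC.trans _ (FIC.trans _ a1 a2) a3
    refine pent hM (FIC.le_inf hβT hβB) hβS hβT (FIC.inf_le_left _ _) (P := PB) ?_ ?_ hs r2
      (hB β P Q m H true false)
    · intro u v h hu
      exact (gaml_keep h.2).1 hu
    · intro u v hS hT hu
      rcases (gaml_keep hT).1 (Or.inl hu) with h1 | h1
      · exact h1
      · rcases (gaml_keep hS).1 (Or.inr hu) with h2 | h2
        · exact absurd (disj hC h1 h2).1 (by decide)
        · exact h2
  exact absurd (disj hC hfin (hB β P Q m H true true)).2 (by decide)

end Pool.Agent.MWI.H24
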